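import Pool.Agent.Lib.MP_ba0fa5_ag.AA.IfaceA

/-!
# BTSUM: the sum of `Λ(n)/n` in a residue class, from Brun-Titchmarsh
-/

set_option autoImplicit false
set_option linter.all false

namespace Pool.Agent.Lib.MP_ba0fa5_ag.AA.H47.Bts

open scoped Classical
open Finset

/-- telescoping sum of `1/m²` -/
lemma sum_inv_sq (q M : ℕ) (hq : 1 ≤ q) :
    ∑ m ∈ Ioc q M, (1 : ℝ) / (m : ℝ) ^ 2 ≤ 1 / q := by
  have hq0 : (0 : ℝ) < q := by exact_mod_cast hq
  have key : ∀ k : ℕ, ∑ m ∈ Ioc q (q + k), (1 : ℝ) / (m : ℝ) ^ 2 ≤ 1 / q - 1 / ((q : ℝ) + k) := by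
    intro k
    induction k with
    | zero => simp
    | succ k ih =>
      have h1 : Ioc q (q + (k + 1)) = insert (q + (k + 1)) (Ioc q (q + k)) := by
        ext m
        simp only [Finset.mem_insert, Finset.mem_Ioc]
        omega
      rw [h1, Finset.sum_insert (by simp)]
      have h2 : (1 : ℝ) / ((q + (k + 1) : ℕ) : ℝ) ^ 2 ≤
          1 / ((q : ℝ) + k) - 1 / ((q : ℝ) + (k + 1 : ℕ)) := by
        push_cast
        have h3 : (0 : ℝ) < (q : ℝ) + k := by positivity
        have h4 : (0 : ℝ) < (q : ℝ) + (k + 1) := by positivity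
        rw [div_sub_div _ _ h3.ne' h4.ne', div_le_div_iff₀ (by positivity) (by positivity)]
        nlinarith
      linarith
  by_cases h : q ≤ M
  · obtain ⟨k, rfl⟩ := Nat.exists_eq_add_of_le h
    have h1 := key k
    have h2 : (0 : ℝ) ≤ 1 / ((q : ℝ) + k) := by positivity
    linarith
  · rw [Finset.Ioc_eq_empty (by omega), Finset.sum_empty]
    positivity

/-- the exponent pair -/
noncomputable def fE (n : ℕ) : ℕ × ℕ :=
  (n.minFac ^ (n.factorization n.minFac / 2), n.factorization n.minFac % 2)

lemma rep {n : ℕ} (h : IsPrimePow n) : n.minFac.Prime ∧ n = n.minFac ^ n.factorization n.minFac ∧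
    1 ≤ n.factorization n.minFac := by
  have h1 : n ≠ 1 := h.ne_one
  have h0 : n ≠ 0 := h.ne_zero
  have hp := Nat.minFac_prime h1
  refine ⟨hp, ?_, ?_⟩
  · exact (IsPrimePow.minFac_pow_factorization_eq h).symm
  · exact (hp.dvd_iff_one_le_factorization h0).1 (Nat.minFac_dvd n)

lemma two_le {n : ℕ} (h : IsPrimePow n) (hn : ¬ n.Prime) : 2 ≤ n.factorization n.minFac := by
  obtain ⟨h1, h2, h3⟩ := rep h
  by_contra h4
  have h5 : n.factorization n.minFac = 1 := by omega
  rw [h5, pow_one] at h2
  rw [h2] at hn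
  exact hn h1

lemma inv_fE {n : ℕ} (h : IsPrimePow n) (hn : ¬ n.Prime) :
    (fE n).1 ^ 2 * (fE n).1.minFac ^ (fE n).2 = n := by
  obtain ⟨h1, h2, h3⟩ := rep h
  have h4 := two_le h hn
  unfold fE
  simp only
  rw [Nat.Prime.pow_minFac h1 (by omega), ← pow_mul, ← pow_add]
  have h5 : n.factorization n.minFac / 2 * 2 + n.factorization n.minFac % 2 =
      n.factorization n.minFac := Nat.div_add_mod' _ _
  rw [h5]
  exact h2.symm

/-- proper prime powers -/
lemma pp (q y : ℕ) (hq : 1 ≤ q) (hy : 2 ≤ y) :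
    ∑ n ∈ (Ioc (q ^ 2) y).filter (fun n => IsPrimePow n ∧ ¬ n.Prime),
      ArithmeticFunction.vonMangoldt n / n ≤ 4 * Real.log y / q := by
  set S := (Ioc (q ^ 2) y).filter (fun n => IsPrimePow n ∧ ¬ n.Prime) with hS
  set G : ℕ × ℕ → ℝ := fun t => if t.1 ≤ q then Real.log y / (q : ℝ) ^ 2 else
    Real.log y / (t.1 : ℝ) ^ 2 with hG
  have hly : 0 < Real.log y := Real.log_pos (by exact_mod_cast (by omega : 1 < y))
  have hq0 : (0 : ℝ) < q := by exact_mod_cast hq
  have hG0 : ∀ t, 0 ≤ G t := by
    intro t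
    change (0 : ℝ) ≤ if t.1 ≤ q then Real.log y / (q : ℝ) ^ 2 else Real.log y / (t.1 : ℝ) ^ 2
    split_ifs <;> positivity
  have hinj : Set.InjOn fE S := by
    intro n hn n' hn' he
    have hn2 := (Finset.mem_filter.1 (Finset.mem_coe.1 hn)).2
    have hn2' := (Finset.mem_filter.1 (Finset.mem_coe.1 hn')).2
    rw [← inv_fE hn2.1 hn2.2, ← inv_fE hn2'.1 hn2'.2, he]
  have h1 : ∀ n ∈ S, ArithmeticFunction.vonMangoldt n / n ≤ G (fE n) := by
    intro n hn
    obtain ⟨hn1, hpp, hnp⟩ := Finset.mem_filter.1 hn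
    rw [Finset.mem_Ioc] at hn1
    have hn0 : 0 < n := hpp.pos
    have hL : ArithmeticFunction.vonMangoldt n ≤ Real.log y := by
      refine ArithmeticFunction.vonMangoldt_le_log.trans ?_
      exact Real.log_le_log (by exact_mod_cast hn0) (by exact_mod_cast hn1.2)
    have hn0' : (0 : ℝ) < n := by exact_mod_cast hn0
    change _ ≤ if (fE n).1 ≤ q then Real.log y / (q : ℝ) ^ 2 else
      Real.log y / ((fE n).1 : ℝ) ^ 2
    have hbound : ∀ T : ℝ, 0 < T → T ≤ n → ArithmeticFunction.vonMangoldt n / n ≤
        Real.log y / T := by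
      intro T hT hTn
      calc ArithmeticFunction.vonMangoldt n / n ≤ Real.log y / n := by gcongr
        _ ≤ Real.log y / T := by gcongr
    split_ifs with h
    · refine hbound _ (by positivity) ?_
      exact_mod_cast hn1.1.le
    · have hm : 0 < (fE n).1 := by omega
      refine hbound _ (by positivity) ?_
      have h5 := inv_fE hpp hnp
      have h6 : (fE n).1 ^ 2 ≤ n := by
        conv_rhs => rw [← h5]
        refine Nat.le_mul_of_pos_right _ (pow_pos (Nat.minFac_pos _) _)
      exact_mod_cast h6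
  have h2 : ∑ n ∈ S, G (fE n) = ∑ t ∈ S.image fE, G t := by
    rw [Finset.sum_image hinj]
  have h3 : S.image fE ⊆ (Icc 1 y) ×ˢ range 2 := by
    intro t ht
    rw [Finset.mem_image] at ht
    obtain ⟨n, hn, rfl⟩ := ht
    obtain ⟨hn1, hpp, hnp⟩ := Finset.mem_filter.1 hn
    rw [Finset.mem_Ioc] at hn1
    have h5 := inv_fE hpp hnp
    have hm : 0 < (fE n).1 := by
      unfold fE
      exact pow_pos (Nat.minFac_pos _) _
    rw [Finset.mem_product, Finset.mem_Icc, Finset.mem_range]
    refine ⟨⟨hm, ?_⟩, ?_⟩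
    · have h6 : (fE n).1 ≤ n := by
        conv_rhs => rw [← h5]
        calc (fE n).1 ≤ (fE n).1 ^ 2 := by rw [sq]; exact Nat.le_mul_of_pos_left _ hm
          _ ≤ _ := Nat.le_mul_of_pos_right _ (pow_pos (Nat.minFac_pos _) _)
      omega
    · unfold fE
      exact Nat.mod_lt _ (by norm_num)
  calc ∑ n ∈ S, ArithmeticFunction.vonMangoldt n / n ≤ ∑ n ∈ S, G (fE n) :=
        Finset.sum_le_sum h1
    _ = ∑ t ∈ S.image fE, G t := h2
    _ ≤ ∑ t ∈ (Icc 1 y) ×ˢ range 2, G t :=
        Finset.sum_le_sum_of_subset_of_nonneg h3 fun t _ _ => hG0 t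
    _ = 2 * ∑ m ∈ Icc 1 y, (if m ≤ q then Real.log y / (q : ℝ) ^ 2 else
          Real.log y / (m : ℝ) ^ 2) := by
        rw [Finset.sum_product, Finset.mul_sum]
        refine Finset.sum_congr rfl fun m _ => ?_
        change ∑ e ∈ range 2, (if m ≤ q then Real.log y / (q : ℝ) ^ 2 else
          Real.log y / (m : ℝ) ^ 2) = _
        rw [Finset.sum_const, Finset.card_range, nsmul_eq_mul]
        norm_num
    _ ≤ 2 * (Real.log y / q + Real.log y / q) := by
        refine mul_le_mul_of_nonneg_left ?_ (by norm_num)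
        calc ∑ m ∈ Icc 1 y, (if m ≤ q then Real.log y / (q : ℝ) ^ 2 else
              Real.log y / (m : ℝ) ^ 2)
            ≤ ∑ m ∈ Icc 1 q ∪ Ioc q y, (if m ≤ q then Real.log y / (q : ℝ) ^ 2 else
              Real.log y / (m : ℝ) ^ 2) := by
              refine Finset.sum_le_sum_of_subset_of_nonneg ?_ ?_
              · intro m hm
                rw [Finset.mem_union, Finset.mem_Icc, Finset.mem_Ioc]
                rw [Finset.mem_Icc] at hm
                omega
              · intro m _ _
                split_ifs <;> positivity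
          _ = ∑ m ∈ Icc 1 q, Real.log y / (q : ℝ) ^ 2 + ∑ m ∈ Ioc q y, Real.log y / (m : ℝ) ^ 2 := by
              rw [Finset.sum_union]
              · congr 1
                · refine Finset.sum_congr rfl fun m hm => ?_
                  rw [Finset.mem_Icc] at hm
                  rw [if_pos hm.2]
                · refine Finset.sum_congr rfl fun m hm => ?_
                  rw [Finset.mem_Ioc] at hm
                  rw [if_neg (by omega)]
              · rw [Finset.disjoint_left]
                intro m hm hm'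
                rw [Finset.mem_Icc] at hm
                rw [Finset.mem_Ioc] at hm'
                omega
          _ ≤ Real.log y / q + Real.log y / q := by
              refine add_le_add ?_ ?_
              · rw [Finset.sum_const, Nat.card_Icc, nsmul_eq_mul, Nat.add_sub_cancel]
                apply le_of_eq
                field_simp
              · have h7 : ∀ m ∈ Ioc q y, Real.log y / (m : ℝ) ^ 2 =
                    Real.log y * (1 / (m : ℝ) ^ 2) := fun m _ => by ring
                rw [Finset.sum_congr rfl h7, ← Finset.mul_sum]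
                calc Real.log y * ∑ m ∈ Ioc q y, 1 / (m : ℝ) ^ 2 ≤ Real.log y * (1 / q) :=
                      mul_le_mul_of_nonneg_left (sum_inv_sq q y hq) hly.le
                  _ = _ := by ring
    _ = 4 * Real.log y / q := by ring

/-- dyadic blocks -/
lemma dyadic (F : ℕ → ℝ) (x₀ : ℕ) (J : ℕ) (P : ℕ → Prop) [DecidablePred P] :
    ∑ l ∈ (Ioc x₀ (x₀ * 2 ^ J)).filter P, F l =
      ∑ j ∈ range J, ∑ l ∈ (Ioc (x₀ * 2 ^ j) (2 * (x₀ * 2 ^ j))).filter P, F l := by
  induction J with
  | zero => simp
  | succ J ih =>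
    rw [Finset.sum_range_succ, ← ih]
    have h1 : (Ioc x₀ (x₀ * 2 ^ (J + 1))) = Ioc x₀ (x₀ * 2 ^ J) ∪
        Ioc (x₀ * 2 ^ J) (2 * (x₀ * 2 ^ J)) := by
      ext l
      rw [Finset.mem_union, Finset.mem_Ioc, Finset.mem_Ioc, Finset.mem_Ioc]
      have e : x₀ * 2 ^ (J + 1) = 2 * (x₀ * 2 ^ J) := by ring
      have e2 : x₀ ≤ x₀ * 2 ^ J := Nat.le_mul_of_pos_right _ (by positivity)
      rw [e]
      omega
    rw [h1, Finset.filter_union, Finset.sum_union]
    rw [Finset.disjoint_left]
    intro l hl hl'
    rw [Finset.mem_filter, Finset.mem_Ioc] at hl hl'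
    omega

theorem btsum (h : BtStmt) : BtsumStmt := by
  obtain ⟨C, hC, hbt⟩ := h
  have hl2 : 0 < Real.log 2 := Real.log_pos (by norm_num)
  refine ⟨5 + 4 * C / Real.log 2, by positivity, ?_⟩
  intro q a y hq hy ha
  have hly : Real.log 2 ≤ Real.log y := Real.log_le_log (by norm_num) (by exact_mod_cast hy)
  have hly0 : 0 < Real.log y := hl2.trans_le hly
  have hφ : 0 < q.totient := Nat.totient_pos.2 (by omega)
  have hφ0 : (0 : ℝ) < q.totient := by exact_mod_cast hφ
  have hq0 : (0 : ℝ) < q := by exact_mod_cast hq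
  have hφq : (q.totient : ℝ) ≤ q := by exact_mod_cast Nat.totient_le q
  set T := (Ioc (q ^ 2) y).filter (fun n => n ≡ a [MOD q]) with hT
  have hsplit := Finset.sum_filter_add_sum_filter_not T (fun n => n.Prime)
    (fun n => ArithmeticFunction.vonMangoldt n / n)
  rw [← hsplit]
  -- prime powers
  have hB : ∑ n ∈ T.filter (fun n => ¬ n.Prime), ArithmeticFunction.vonMangoldt n / n ≤
      4 * Real.log y / q.totient := by
    calc ∑ n ∈ T.filter (fun n => ¬ n.Prime), ArithmeticFunction.vonMangoldt n / n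
        = ∑ n ∈ (T.filter (fun n => ¬ n.Prime)).filter (fun n => IsPrimePow n),
            ArithmeticFunction.vonMangoldt n / n := by
          rw [Finset.sum_filter (p := fun n => IsPrimePow n)]
          refine Finset.sum_congr rfl fun n _ => ?_
          split_ifs with h1
          · rfl
          · rw [ArithmeticFunction.vonMangoldt_apply, if_neg h1, zero_div]
      _ ≤ ∑ n ∈ (Ioc (q ^ 2) y).filter (fun n => IsPrimePow n ∧ ¬ n.Prime),
            ArithmeticFunction.vonMangoldt n / n := by
          refine Finset.sum_le_sum_of_subset_of_nonneg ?_ ?_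
          · intro n hn
            simp only [Finset.mem_filter, hT] at hn ⊢
            exact ⟨hn.1.1.1, hn.2, hn.1.2⟩
          · intro n _ _
            exact div_nonneg ArithmeticFunction.vonMangoldt_nonneg (Nat.cast_nonneg _)
      _ ≤ 4 * Real.log y / q := pp q y hq hy
      _ ≤ 4 * Real.log y / q.totient := by gcongr
  -- primes
  set P : ℕ → Prop := fun l => l.Prime ∧ l ≡ a [MOD q] with hP
  have hA0 : ∑ n ∈ T.filter (fun n => n.Prime), ArithmeticFunction.vonMangoldt n / n =
      ∑ l ∈ (Ioc (q ^ 2) y).filter P, Real.log l / l := by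
    have h1 : T.filter (fun n => n.Prime) = (Ioc (q ^ 2) y).filter P := by
      ext l
      simp only [Finset.mem_filter, hT, hP]
      tauto
    rw [h1]
    refine Finset.sum_congr rfl fun l hl => ?_
    rw [Finset.mem_filter] at hl
    rw [ArithmeticFunction.vonMangoldt_apply_prime hl.2.1]
  set x₀ := max (q ^ 2) 2 with hx₀
  have hx2 : 2 ≤ x₀ := le_max_right _ _
  have hxq : q ^ 2 ≤ x₀ := le_max_left _ _
  have hF0 : ∀ l : ℕ, 0 ≤ Real.log l / l := fun l =>
    div_nonneg (Real.log_natCast_nonneg l) (Nat.cast_nonneg _)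
  have hblock : ∀ x : ℕ, x₀ ≤ x →
      ∑ l ∈ (Ioc x (2 * x)).filter P, Real.log l / l ≤ 2 * C / q.totient := by
    intro x hx
    have hx2' : 2 ≤ x := hx2.trans hx
    have hx0 : (0 : ℝ) < x := by exact_mod_cast (by omega : 0 < x)
    have hlx : 0 < Real.log x := Real.log_pos (by exact_mod_cast (by omega : 1 < x))
    have h1 := hbt q a x hq (hxq.trans hx) hx2' ha
    have h2 : ∀ l ∈ (Ioc x (2 * x)).filter P, Real.log l / l ≤ 2 * Real.log x / x := by
      intro l hl
      rw [Finset.mem_filter, Finset.mem_Ioc] at hl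
      have hl0 : (x : ℝ) < l := by exact_mod_cast hl.1.1
      have h3 : Real.log l ≤ 2 * Real.log x := by
        calc Real.log l ≤ Real.log (2 * x) :=
              Real.log_le_log (by linarith) (by exact_mod_cast hl.1.2)
          _ = Real.log 2 + Real.log x := Real.log_mul (by norm_num) hx0.ne'
          _ ≤ Real.log x + Real.log x := by
              have : Real.log 2 ≤ Real.log x :=
                Real.log_le_log (by norm_num) (by exact_mod_cast hx2')
              linarith
          _ = 2 * Real.log x := by ring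
      calc Real.log l / l ≤ 2 * Real.log x / l := by gcongr
        _ ≤ 2 * Real.log x / x := by
            have : (0 : ℝ) ≤ 2 * Real.log x := by positivity
            gcongr
    calc ∑ l ∈ (Ioc x (2 * x)).filter P, Real.log l / l
        ≤ ∑ _l ∈ (Ioc x (2 * x)).filter P, 2 * Real.log x / x := Finset.sum_le_sum h2
      _ = (((Ioc x (2 * x)).filter P).card : ℝ) * (2 * Real.log x / x) := by
          rw [Finset.sum_const, nsmul_eq_mul]
      _ ≤ C * x / (q.totient * Real.log x) * (2 * Real.log x / x) := by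
          refine mul_le_mul_of_nonneg_right h1 (by positivity)
      _ = 2 * C / q.totient := by
          field_simp
  set J := Nat.log 2 y + 1 with hJ
  have hyJ : y ≤ x₀ * 2 ^ J := by
    have h1 : y < 2 ^ J := Nat.lt_pow_succ_log_self (by norm_num) y
    have h2 : 2 ^ J ≤ x₀ * 2 ^ J := Nat.le_mul_of_pos_left _ (by omega)
    omega
  have hJle : (J : ℝ) ≤ 2 * Real.log y / Real.log 2 := by
    have h1 : (2 : ℝ) ^ (Nat.log 2 y) ≤ y := by
      exact_mod_cast Nat.pow_log_le_self 2 (by omega : y ≠ 0)
    have h2 : (Nat.log 2 y : ℝ) * Real.log 2 ≤ Real.log y := by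
      rw [← Real.log_pow]
      exact Real.log_le_log (by positivity) h1
    rw [le_div_iff₀ hl2, hJ]
    push_cast
    nlinarith
  have hdy := dyadic (fun l : ℕ => Real.log l / l) x₀ J P
  have hmain : ∑ l ∈ (Ioc x₀ y).filter P, Real.log l / l ≤
      4 * C / Real.log 2 * (Real.log y / q.totient) := by
    calc ∑ l ∈ (Ioc x₀ y).filter P, Real.log l / l
        ≤ ∑ l ∈ (Ioc x₀ (x₀ * 2 ^ J)).filter P, Real.log l / l := by
          refine Finset.sum_le_sum_of_subset_of_nonneg ?_ fun l _ _ => hF0 l
          refine Finset.filter_subset_filter _ ?_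
          exact Finset.Ioc_subset_Ioc_right hyJ
      _ = ∑ j ∈ range J, ∑ l ∈ (Ioc (x₀ * 2 ^ j) (2 * (x₀ * 2 ^ j))).filter P, Real.log l / l :=
          hdy
      _ ≤ ∑ _j ∈ range J, 2 * C / q.totient := by
          refine Finset.sum_le_sum fun j _ => hblock _ ?_
          exact Nat.le_mul_of_pos_right _ (by positivity)
      _ = J * (2 * C / q.totient) := by
          rw [Finset.sum_const, Finset.card_range, nsmul_eq_mul]
      _ ≤ 2 * Real.log y / Real.log 2 * (2 * C / q.totient) := by gcongr
      _ = _ := by ring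
  have hsmall : ∑ l ∈ (Ioc (q ^ 2) x₀).filter P, Real.log l / l ≤ Real.log y / q.totient := by
    by_cases h2 : 2 ≤ q
    · have : x₀ = q ^ 2 := by
        rw [hx₀, max_eq_left]
        nlinarith
      rw [this, Finset.Ioc_self, Finset.filter_empty, Finset.sum_empty]
      positivity
    · have hq1 : q = 1 := by omega
      have hx : x₀ = 2 := by
        rw [hx₀, hq1]
        rfl
      have h8 : Ioc (q ^ 2) x₀ = {2} := by
        rw [hx, hq1]
        decide
      calc ∑ l ∈ (Ioc (q ^ 2) x₀).filter P, Real.log l / l ≤ ∑ l ∈ Ioc (q ^ 2) x₀, Real.log l / l :=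
            Finset.sum_le_sum_of_subset_of_nonneg (Finset.filter_subset _ _) fun l _ _ => hF0 l
        _ = Real.log 2 / 2 := by
            rw [h8, Finset.sum_singleton]
            norm_num
        _ ≤ Real.log y / (q.totient : ℝ) := by
            rw [hq1, Nat.totient_one, Nat.cast_one, div_one]
            linarith
  have hA : ∑ l ∈ (Ioc (q ^ 2) y).filter P, Real.log l / l ≤
      Real.log y / q.totient + 4 * C / Real.log 2 * (Real.log y / q.totient) := by
    calc ∑ l ∈ (Ioc (q ^ 2) y).filter P, Real.log l / l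
        ≤ ∑ l ∈ (Ioc (q ^ 2) x₀).filter P ∪ (Ioc x₀ y).filter P, Real.log l / l := by
          refine Finset.sum_le_sum_of_subset_of_nonneg ?_ fun l _ _ => hF0 l
          rw [← Finset.filter_union]
          refine Finset.filter_subset_filter _ ?_
          intro l hl
          rw [Finset.mem_union, Finset.mem_Ioc, Finset.mem_Ioc]
          rw [Finset.mem_Ioc] at hl
          omega
      _ = ∑ l ∈ (Ioc (q ^ 2) x₀).filter P, Real.log l / l +
            ∑ l ∈ (Ioc x₀ y).filter P, Real.log l / l := by
          rw [Finset.sum_union]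
          rw [Finset.disjoint_left]
          intro l hl hl'
          rw [Finset.mem_filter, Finset.mem_Ioc] at hl hl'
          omega
      _ ≤ _ := add_le_add hsmall hmain
  rw [hA0]
  calc _ ≤ (Real.log y / q.totient + 4 * C / Real.log 2 * (Real.log y / q.totient)) +
        4 * Real.log y / q.totient := add_le_add hA hB
    _ = _ := by ring

end Pool.Agent.Lib.MP_ba0fa5_ag.AA.H47.Bts

namespace Pool.Agent.Lib.MP_ba0fa5_ag.AA.H47

theorem btsum (h : BtStmt) : BtsumStmt := Bts.btsum h

end Pool.Agent.Lib.MP_ba0fa5_ag.AA.H47
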