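import Pool.Agent.Lib.MP_ba0fa5_ag.AA.IfaceA

/-!
# APSUM: the sum of `fw` over a class, general classes
-/

set_option autoImplicit false
set_option linter.all false

namespace Pool.Agent.Lib.MP_ba0fa5_ag.AA.H47.Aps

open scoped Classical
open Finset

lemma dl_nonneg (l : ℕ) : 0 ≤ dl l := by
  unfold dl
  split_ifs <;> norm_num

lemma dl_le_half (l : ℕ) : dl l ≤ 1 / 2 := by
  unfold dl
  split_ifs <;> norm_num

lemma ws_nonneg (n : ℕ) : 0 ≤ ws n := by
  unfold ws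
  exact Finset.prod_nonneg fun l _ => pow_nonneg (dl_nonneg l) _

lemma fw_nonneg (n : ℕ) : 0 ≤ fw n := by
  unfold fw
  exact div_nonneg (ws_nonneg n) (Nat.cast_nonneg _)

lemma ws_mul {m n : ℕ} (hm : m ≠ 0) (hn : n ≠ 0) : ws (m * n) = ws m * ws n := by
  have h : ∀ k : ℕ, ws k = k.factorization.prod (fun l e => dl l ^ e) := by
    intro k
    unfold ws Finsupp.prod
    rw [Nat.support_factorization]
  rw [h, h, h, Nat.factorization_mul hm hn, Finsupp.prod_add_index']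
  · intro l
    exact pow_zero _
  · intro l a b
    exact pow_add _ _ _

lemma phi_real (n : ℕ) : (n.totient : ℝ) = n * ∏ p ∈ n.primeFactors, (1 - (p : ℝ)⁻¹) := by
  have h := Nat.totient_eq_mul_prod_factors n
  have h2 := congrArg (fun x : ℚ => (x : ℝ)) h
  push_cast at h2
  exact h2

lemma fac_nonneg {n p : ℕ} (hp : p ∈ n.primeFactors) : (0 : ℝ) ≤ 1 - (p : ℝ)⁻¹ ∧
    (1 : ℝ) - (p : ℝ)⁻¹ ≤ 1 ∧ (1 / 2 : ℝ) ≤ 1 - (p : ℝ)⁻¹ := by
  have h1 : (2 : ℝ) ≤ p := by exact_mod_cast (Nat.prime_of_mem_primeFactors hp).two_le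
  have h2 : (p : ℝ)⁻¹ ≤ 1 / 2 := by
    rw [inv_le_comm₀ (by linarith) (by norm_num)]
    linarith
  have h3 : (0 : ℝ) ≤ (p : ℝ)⁻¹ := by positivity
  exact ⟨by linarith, by linarith, by linarith⟩

lemma fw_le {n : ℕ} (hn : n ≠ 0) : fw n ≤ 1 / n := by
  have hn0 : (0 : ℝ) < n := by exact_mod_cast Nat.pos_of_ne_zero hn
  have hφ : (0 : ℝ) < n.totient := by exact_mod_cast Nat.totient_pos.2 (Nat.pos_of_ne_zero hn)
  have h1 : ws n ≤ ∏ p ∈ n.primeFactors, (1 - (p : ℝ)⁻¹) := by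
    unfold ws
    refine Finset.prod_le_prod (fun l _ => pow_nonneg (dl_nonneg l) _) fun l hl => ?_
    have h2 : 1 ≤ n.factorization l := by
      have := Nat.support_factorization n ▸ hl
      exact Nat.one_le_iff_ne_zero.2 (Finsupp.mem_support_iff.1 this)
    calc dl l ^ n.factorization l ≤ dl l ^ 1 :=
          pow_le_pow_of_le_one (dl_nonneg l) (by linarith [dl_le_half l]) h2
      _ = dl l := pow_one _
      _ ≤ 1 / 2 := dl_le_half l
      _ ≤ _ := (fac_nonneg hl).2.2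
  unfold fw
  rw [div_le_div_iff₀ hφ hn0, one_mul, phi_real n, mul_comm]
  exact mul_le_mul_of_nonneg_left h1 hn0.le

lemma fw_mul_le {m n : ℕ} (hm : m ≠ 0) (hn : n ≠ 0) : fw (m * n) ≤ 1 / m * fw n := by
  have h1 : fw (m * n) ≤ fw m * fw n := by
    have e1 : (0 : ℝ) < m.totient := by exact_mod_cast Nat.totient_pos.2 (Nat.pos_of_ne_zero hm)
    have e2 : (0 : ℝ) < n.totient := by exact_mod_cast Nat.totient_pos.2 (Nat.pos_of_ne_zero hn)
    have e3 : (m.totient : ℝ) * n.totient ≤ (m * n).totient := by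
      exact_mod_cast Nat.totient_super_multiplicative m n
    unfold fw
    rw [ws_mul hm hn, div_mul_div_comm]
    have e4 := mul_nonneg (ws_nonneg m) (ws_nonneg n)
    gcongr
  exact h1.trans (mul_le_mul_of_nonneg_right (fw_le hm) (fw_nonneg n))

lemma phi_le {a b : ℕ} (ha : a ≠ 0) (hb : b ≠ 0) : ((a * b).totient : ℝ) ≤ a * b.totient := by
  rw [phi_real (a * b), phi_real b]
  have hsub : b.primeFactors ⊆ (a * b).primeFactors :=
    Nat.primeFactors_mono (dvd_mul_left b a) (mul_ne_zero ha hb)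
  rw [← Finset.prod_sdiff hsub]
  have h1 : ∏ p ∈ (a * b).primeFactors \ b.primeFactors, (1 - (p : ℝ)⁻¹) ≤ 1 := by
    refine Finset.prod_le_one ?_ ?_
    · intro p hp
      exact (fac_nonneg (Finset.mem_sdiff.1 hp).1).1
    · intro p hp
      exact (fac_nonneg (Finset.mem_sdiff.1 hp).1).2.1
  have h2 : 0 ≤ ∏ p ∈ b.primeFactors, (1 - (p : ℝ)⁻¹) :=
    Finset.prod_nonneg fun p hp => (fac_nonneg hp).1
  push_cast
  have h3 : (0 : ℝ) ≤ (a : ℝ) * b := by positivity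
  calc (a : ℝ) * b * ((∏ p ∈ (a * b).primeFactors \ b.primeFactors, (1 - (p : ℝ)⁻¹)) *
        ∏ p ∈ b.primeFactors, (1 - (p : ℝ)⁻¹))
      ≤ (a : ℝ) * b * (1 * ∏ p ∈ b.primeFactors, (1 - (p : ℝ)⁻¹)) := by
        gcongr
    _ = a * (b * ∏ p ∈ b.primeFactors, (1 - (p : ℝ)⁻¹)) := by ring

/-- large `Y` -/
lemma evt (k Q : ℕ) : ∃ Y₁ : ℕ, 1 ≤ Y₁ ∧ ∀ Y : ℕ, Y₁ ≤ Y → (Q : ℝ) ≤ Real.log Y ∧
    Real.log Y ^ k ≤ Real.sqrt Y ∧ 1 ≤ Real.log Y := by
  have h1 : ∀ᶠ x : ℝ in Filter.atTop, Real.log x ^ (2 * k) ≤ x := by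
    have h := (Real.isLittleO_pow_log_id_atTop (n := 2 * k)).bound (c := 1) one_pos
    filter_upwards [h, Filter.eventually_ge_atTop (1 : ℝ)] with x hx hx1
    rw [one_mul, Real.norm_of_nonneg (pow_nonneg (Real.log_nonneg hx1) _), id_eq,
      Real.norm_of_nonneg (by linarith)] at hx
    exact hx
  have h2 : ∀ᶠ x : ℝ in Filter.atTop, (Q : ℝ) ≤ Real.log x :=
    Real.tendsto_log_atTop.eventually_ge_atTop _
  have h3 : ∀ᶠ x : ℝ in Filter.atTop, (1 : ℝ) ≤ Real.log x :=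
    Real.tendsto_log_atTop.eventually_ge_atTop _
  have h4 := (tendsto_natCast_atTop_atTop (R := ℝ)).eventually (h1.and (h2.and h3))
  obtain ⟨Y₁, hY₁⟩ := Filter.eventually_atTop.1 h4
  refine ⟨max Y₁ 1, le_max_right _ _, fun Y hY => ?_⟩
  obtain ⟨e1, e2, e3⟩ := hY₁ Y ((le_max_left _ _).trans hY)
  refine ⟨e2, ?_, e3⟩
  apply Real.le_sqrt_of_sq_le
  rw [← pow_mul, mul_comm]
  exact e1

theorem apsum (h : ApcoreStmt) : ApsumStmt := by
  obtain ⟨C, hC, hap⟩ := h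
  refine ⟨C, hC, ?_⟩
  intro W k hW
  obtain ⟨Y₀, hY₀⟩ := hap W (k + 1) hW
  obtain ⟨Y₁, hY₁1, hY₁⟩ := evt k (primorial W)
  refine ⟨max Y₀ Y₁, ?_⟩
  intro Y D a c hY hD hDle hDW ha
  have hYY₀ : Y₀ ≤ Y := (le_max_left _ _).trans hY
  have hYY₁ : Y₁ ≤ Y := (le_max_right _ _).trans hY
  obtain ⟨hQ, hsq, hlog1⟩ := hY₁ Y hYY₁
  have hY1 : 1 ≤ Y := hY₁1.trans hYY₁
  set Q := primorial W with hQdef
  have hQ0 : 0 < Q := primorial_pos W
  set S := (cls W a Y (Y ^ 3)).filter (fun n => n ≡ c [MOD D]) with hS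
  have hR : 0 ≤ (Real.log Y / Real.log W) ^ (5 / 16 : ℝ) := by
    have h1 : 0 ≤ Real.log Y / Real.log W :=
      div_nonneg (Real.log_natCast_nonneg _) (Real.log_natCast_nonneg _)
    positivity
  have hSS : 0 ≤ C * SS W Y / D.totient := by
    unfold SS
    positivity
  by_cases hne : S.Nonempty
  · obtain ⟨n₀, hn₀⟩ := hne
    set D₀ := c.gcd D with hD₀
    have hD₀D : D₀ ∣ D := Nat.gcd_dvd_right _ _
    have hD₀c : D₀ ∣ c := Nat.gcd_dvd_left _ _
    have hD₀0 : 0 < D₀ := Nat.pos_of_dvd_of_pos hD₀D hD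
    obtain ⟨D₁, hD₁⟩ := hD₀D
    have hD₁0 : D₁ ≠ 0 := by
      rintro rfl
      rw [mul_zero] at hD₁
      omega
    have hmem : ∀ n ∈ S, Y < n ∧ n ≤ Y ^ 3 ∧ n ≡ a [MOD Q] ∧ n ≡ c [MOD D] := by
      intro n hn
      unfold cls at hS
      rw [hS, Finset.mem_filter, Finset.mem_filter, Finset.mem_Ioc] at hn
      exact ⟨hn.1.1.1, hn.1.1.2, hn.1.2, hn.2⟩
    have hdvd : ∀ n ∈ S, D₀ ∣ n := by
      intro n hn
      have h1 : n ≡ c [MOD D₀] := (hmem n hn).2.2.2.of_dvd ⟨D₁, hD₁⟩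
      exact (h1.dvd_iff (dvd_refl D₀)).2 hD₀c
    obtain ⟨b, hb⟩ := hdvd n₀ hn₀
    obtain ⟨hn1, hn2, hn3, hn4⟩ := hmem n₀ hn₀
    have hDQ₀ : D₀.Coprime Q := Nat.Coprime.coprime_dvd_left ⟨D₁, hD₁⟩ hDW
    have hDQ₁ : D₁.Coprime Q := Nat.Coprime.coprime_dvd_left ⟨D₀, by rw [hD₁, mul_comm]⟩ hDW
    -- the class of the quotients
    have hbQ : b.Coprime Q := by
      have h1 : n₀.Coprime Q := by
        have h2 : n₀.gcd Q = a.gcd Q := hn3.gcd_eq
        unfold Nat.Coprime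
        rw [h2]
        exact ha
      exact Nat.Coprime.coprime_dvd_left ⟨D₀, by rw [hb, mul_comm]⟩ h1
    have hbD : b.Coprime D₁ := by
      have h2 : n₀.gcd D = c.gcd D := hn4.gcd_eq
      rw [← hD₀, hb, hD₁, Nat.gcd_mul_left] at h2
      have h3 : D₀ * (b.gcd D₁) = D₀ * 1 := by rw [mul_one]; exact h2
      exact Nat.eq_of_mul_eq_mul_left hD₀0 h3
    have hbq : b.Coprime (Q * D₁) := Nat.Coprime.mul_right hbQ hbD
    set T := (Ioc (Nat.sqrt Y) (Y ^ 3)).filter (fun n => n ≡ b [MOD (Q * D₁)]) with hT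
    have hsub : S ⊆ T.image (fun n => D₀ * n) := by
      intro n hn
      obtain ⟨m, hm⟩ := hdvd n hn
      obtain ⟨h1, h2, h3, h4⟩ := hmem n hn
      rw [Finset.mem_image]
      refine ⟨m, ?_, hm.symm⟩
      rw [hT, Finset.mem_filter, Finset.mem_Ioc]
      refine ⟨⟨?_, ?_⟩, ?_⟩
      · -- sqrt Y < m
        rw [Nat.sqrt_lt]
        by_contra hlt
        rw [not_lt] at hlt
        have hm2 : (m : ℝ) ≤ Real.sqrt Y := by
          apply Real.le_sqrt_of_sq_le
          rw [sq]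
          exact_mod_cast hlt
        have hD2 : (D₀ : ℝ) ≤ Real.sqrt Y := by
          have h5 : (D₀ : ℝ) ≤ D := by
            exact_mod_cast Nat.le_of_dvd hD ⟨D₁, hD₁⟩
          exact h5.trans (hDle.trans hsq)
        have h6 : (n : ℝ) ≤ Y := by
          rw [hm]
          push_cast
          calc (D₀ : ℝ) * m ≤ Real.sqrt Y * Real.sqrt Y := by gcongr
            _ = Y := Real.mul_self_sqrt (Nat.cast_nonneg _)
        have h7 : n ≤ Y := by exact_mod_cast h6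
        omega
      · have h5 : m ≤ n := by
          rw [hm]
          exact Nat.le_mul_of_pos_left _ hD₀0
        omega
      · have hc1 : Nat.Coprime Q D₁ := hDQ₁.symm
        refine (Nat.modEq_and_modEq_iff_modEq_mul hc1).1 ⟨?_, ?_⟩
        · have h5 : D₀ * m ≡ D₀ * b [MOD Q] := by
            rw [← hm, ← hb]
            exact h3.trans hn3.symm
          refine Nat.ModEq.cancel_left_of_coprime ?_ h5
          exact hDQ₀.symm
        · have h5 : D₀ * m ≡ D₀ * b [MOD (D₀ * D₁)] := by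
            rw [← hm, ← hb, ← hD₁]
            exact h4.trans hn4.symm
          exact Nat.ModEq.mul_left_cancel' hD₀0.ne' h5
    have hcore := hY₀ Y (Q * D₁) b hYY₀ (Nat.one_le_iff_ne_zero.2 (mul_ne_zero hQ0.ne' hD₁0))
      (by
        push_cast
        have h5 : (D₁ : ℝ) ≤ D := by
          exact_mod_cast Nat.le_of_dvd hD ⟨D₀, by rw [hD₁, mul_comm]⟩
        rw [pow_succ, mul_comm]
        have h6 : (0 : ℝ) ≤ Real.log Y ^ k := by positivity
        calc (D₁ : ℝ) * Q ≤ Real.log Y ^ k * Real.log Y := by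
              gcongr
              exact h5.trans hDle
          _ = _ := rfl)
      (dvd_mul_right _ _) hbq
    have hφ1 : (0 : ℝ) < Q.totient := by exact_mod_cast Nat.totient_pos.2 hQ0
    have hφ2 : (0 : ℝ) < D₁.totient := by
      exact_mod_cast Nat.totient_pos.2 (Nat.pos_of_ne_zero hD₁0)
    have hφ3 : (0 : ℝ) < D.totient := by exact_mod_cast Nat.totient_pos.2 hD
    have hD₀r : (0 : ℝ) < D₀ := by exact_mod_cast hD₀0
    have hφD : (D.totient : ℝ) ≤ D₀ * D₁.totient := by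
      rw [hD₁]
      exact phi_le hD₀0.ne' hD₁0
    calc ∑ n ∈ S, fw n ≤ ∑ n ∈ T.image (fun n => D₀ * n), fw n :=
          Finset.sum_le_sum_of_subset_of_nonneg hsub fun n _ _ => fw_nonneg n
      _ = ∑ n ∈ T, fw (D₀ * n) := by
          rw [Finset.sum_image]
          intro x _ y _ hxy
          exact Nat.eq_of_mul_eq_mul_left hD₀0 hxy
      _ ≤ ∑ n ∈ T, 1 / D₀ * fw n := by
          refine Finset.sum_le_sum fun n hn => ?_
          rw [hT, Finset.mem_filter, Finset.mem_Ioc] at hn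
          exact fw_mul_le hD₀0.ne' (by omega)
      _ = 1 / D₀ * ∑ n ∈ T, fw n := by rw [Finset.mul_sum]
      _ ≤ 1 / D₀ * (C * (Real.log Y / Real.log W) ^ (5 / 16 : ℝ) / (Q * D₁).totient) := by
          gcongr
      _ = C * (Real.log Y / Real.log W) ^ (5 / 16 : ℝ) / Q.totient * (1 / (D₀ * D₁.totient)) := by
          rw [Nat.totient_mul hDQ₁.symm]
          push_cast
          field_simp
      _ ≤ C * (Real.log Y / Real.log W) ^ (5 / 16 : ℝ) / Q.totient * (1 / D.totient) := by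
          gcongr
      _ = C * SS W Y / D.totient := by
          unfold SS
          rw [← hQdef]
          ring
  · rw [Finset.not_nonempty_iff_eq_empty] at hne
    rw [hne, Finset.sum_empty]
    exact hSS

end Pool.Agent.Lib.MP_ba0fa5_ag.AA.H47.Aps

namespace Pool.Agent.Lib.MP_ba0fa5_ag.AA.H47

theorem apsum (h : ApcoreStmt) : ApsumStmt := Aps.apsum h

end Pool.Agent.Lib.MP_ba0fa5_ag.AA.H47
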