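import Pool.Agent.Lib.MP_ba0fa5_ag.AA.IfaceA

/-!
# PROB1, PROB2: first and second moment over the residues
-/

set_option autoImplicit false
set_option linter.all false

namespace Pool.Agent.Lib.MP_ba0fa5_ag.AA.H47

open scoped Classical
open Finset

lemma primorial_pos' (W : ℕ) : 0 < primorial W := primorial_pos W

lemma two_dvd {W : ℕ} (hW : 3 ≤ W) : 2 ∣ primorial W := by
  unfold primorial
  refine Finset.dvd_prod_of_mem (fun p : ℕ => p) ?_
  rw [Finset.mem_filter, Finset.mem_range]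
  exact ⟨by omega, Nat.prime_two⟩

lemma box_mem {W c Z : ℕ} {q : ℕ × ℕ × ℕ × ℕ} (hq : q ∈ Box W c Z) :
    (Z < q.1 ∧ q.1 ≤ Z ^ 3 ∧ q.1 ≡ c [MOD primorial W]) ∧
    (Z ^ 10 < q.2.1 ∧ q.2.1 ≤ (Z ^ 10) ^ 3 ∧ q.2.1 ≡ c [MOD primorial W]) ∧
    (Z ^ 100 < q.2.2.1 ∧ q.2.2.1 ≤ (Z ^ 100) ^ 3 ∧
      q.2.2.1 ≡ (primorial W - 1) * c [MOD primorial W]) ∧
    (Z < q.2.2.2 ∧ q.2.2.2 ≤ Z ^ 3 ∧ q.2.2.2 ≡ 1 [MOD primorial W]) ∧ Cop q := by
  unfold Box BoxAll cls at hq
  simp only [Finset.mem_filter, Finset.mem_product, Finset.mem_Ioc] at hq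
  obtain ⟨⟨⟨⟨h1, h2⟩, h3⟩, ⟨⟨h4, h5⟩, h6⟩, ⟨⟨h7, h8⟩, h9⟩, ⟨h10, h11⟩, h12⟩, h13⟩ := hq
  exact ⟨⟨h1, h2, h3⟩, ⟨h4, h5, h6⟩, ⟨h7, h8, h9⟩, ⟨h10, h11, h12⟩, h13⟩

lemma bb_le {W c Z : ℕ} {q : ℕ × ℕ × ℕ × ℕ} (hZ : 1 ≤ Z) (hq : q ∈ Box W c Z) :
    bb q ≤ 3 * Z ^ 300 := by
  obtain ⟨⟨-, h2, -⟩, ⟨-, h5, -⟩, ⟨-, h8, -⟩, -⟩ := box_mem hq
  have e1 : Z ^ 3 ≤ Z ^ 300 := Nat.pow_le_pow_right hZ (by norm_num)
  have e2 : (Z ^ 10) ^ 3 ≤ Z ^ 300 := by
    rw [← pow_mul]
    exact Nat.pow_le_pow_right hZ (by norm_num)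
  have e3 : (Z ^ 100) ^ 3 = Z ^ 300 := by rw [← pow_mul]
  rw [e3] at h8
  unfold bb
  have h2' := h2.trans e1
  have h5' := h5.trans e2
  generalize Z ^ 300 = T at *
  omega

lemma bb_mod {W c Z : ℕ} {q : ℕ × ℕ × ℕ × ℕ} (hq : q ∈ Box W c Z) :
    bb q ≡ c [MOD primorial W] := by
  obtain ⟨⟨-, -, h3⟩, ⟨-, -, h6⟩, ⟨-, -, h9⟩, -⟩ := box_mem hq
  have hP := primorial_pos W
  have h := (h3.add h6).add h9
  have e : c + c + (primorial W - 1) * c = c + primorial W * c := by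
    obtain ⟨k, hk⟩ : ∃ k, primorial W = k + 1 := ⟨primorial W - 1, by omega⟩
    rw [hk, Nat.add_sub_cancel]
    ring
  rw [e] at h
  refine h.trans ?_
  unfold Nat.ModEq
  rw [Nat.add_mul_mod_self_left]

lemma odd_sum {W c Z X N₀ N : ℕ} {q : ℕ × ℕ × ℕ × ℕ} (hW : 3 ≤ W) (hq : q ∈ Box W c Z)
    (hN : N ∈ NN W X N₀) (hc : (N₀ + c).Coprime (primorial W)) : Odd (N + bb q) := by
  unfold NN at hN
  rw [Finset.mem_filter] at hN
  have h1 : N + bb q ≡ N₀ + c [MOD primorial W] := hN.2.add (bb_mod hq)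
  have h2 : N + bb q ≡ N₀ + c [MOD 2] := h1.of_dvd (two_dvd hW)
  have h3 : Odd (N₀ + c) := by
    rw [← Nat.not_even_iff_odd]
    intro h
    have h4 := Nat.dvd_gcd h.two_dvd (two_dvd hW)
    rw [hc] at h4
    omega
  rw [Nat.odd_iff] at h3 ⊢
  unfold Nat.ModEq at h2
  omega

lemma mem_NN {W X N₀ N : ℕ} (hN : N ∈ NN W X N₀) : 1 ≤ N ∧ N ≤ X := by
  unfold NN at hN
  rw [Finset.mem_filter, Finset.mem_Icc] at hN
  exact hN.1

lemma sum_le {W c Z X N₀ N : ℕ} {q : ℕ × ℕ × ℕ × ℕ} (hZ : 1 ≤ Z) (hX : 3 * Z ^ 300 ≤ X)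
    (hq : q ∈ Box W c Z) (hN : N ∈ NN W X N₀) : N + bb q ≤ 2 * X := by
  have h1 := bb_le hZ hq
  have h2 := mem_NN hN
  omega

lemma delta_pos (l : ℕ) : 0 < delta l := by
  unfold delta
  positivity

lemma delta_le_one (l : ℕ) : delta l ≤ 1 := by
  unfold delta
  exact pow_le_one₀ (by norm_num) (by norm_num)

lemma wt_pos (n : ℕ) : 0 < wt n := by
  unfold wt
  exact Finset.prod_pos fun l _ => delta_pos l

lemma dl_nonneg (l : ℕ) : 0 ≤ dl l := by
  unfold dl
  split_ifs <;> norm_num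

lemma dl_le_one (l : ℕ) : dl l ≤ 1 := by
  unfold dl
  split_ifs <;> norm_num

lemma ws_nonneg (n : ℕ) : 0 ≤ ws n := by
  unfold ws
  exact Finset.prod_nonneg fun l _ => pow_nonneg (dl_nonneg l) _

/-- `v_2(l-1) = 1` -/
lemma val_one {l : ℕ} (h : l % 4 = 3) : padicValNat 2 (l - 1) = 1 := by
  obtain ⟨k, hk⟩ : ∃ k, l - 1 = 2 * (2 * k + 1) := ⟨l / 4, by omega⟩
  rw [hk, padicValNat.mul (by norm_num) (by omega), padicValNat.self (by norm_num),
    padicValNat.eq_zero_of_not_dvd (by omega)]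

/-- `v_2(l-1) = 2` -/
lemma val_two {l : ℕ} (h : l % 8 = 5) : padicValNat 2 (l - 1) = 2 := by
  obtain ⟨k, hk⟩ : ∃ k, l - 1 = 2 * (2 * (2 * k + 1)) := ⟨l / 8, by omega⟩
  rw [hk, padicValNat.mul (by norm_num) (by omega), padicValNat.mul (by norm_num) (by omega),
    padicValNat.self (by norm_num), padicValNat.eq_zero_of_not_dvd (by omega)]

lemma dl_le_delta (l : ℕ) : dl l ≤ delta l := by
  unfold dl
  split_ifs with h1 h2
  · unfold delta
    rw [val_one h1, pow_one]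
  · unfold delta
    rw [val_two h2]
    norm_num
  · exact (delta_pos l).le

lemma quarter_le {l : ℕ} (h : dl l ≠ 0) : 1 / 4 ≤ delta l := by
  unfold dl at h
  split_ifs at h with h1 h2
  · unfold delta
    rw [val_one h1]
    norm_num
  · unfold delta
    rw [val_two h2]
    norm_num
  · exact absurd rfl h

lemma ws_le_wt (n : ℕ) : ws n ≤ wt n := by
  unfold ws wt
  refine Finset.prod_le_prod (fun l _ => pow_nonneg (dl_nonneg l) _) fun l hl => ?_
  have h1 : 1 ≤ n.factorization l := by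
    have := Nat.support_factorization n ▸ hl
    exact Nat.one_le_iff_ne_zero.2 (Finsupp.mem_support_iff.1 this)
  calc dl l ^ n.factorization l ≤ dl l ^ 1 :=
        pow_le_pow_of_le_one (dl_nonneg l) (dl_le_one l) h1
    _ = dl l := pow_one _
    _ ≤ delta l := dl_le_delta l

lemma dl_ne_of_ws_ne {n l : ℕ} (h : ws n ≠ 0) (hl : l ∈ n.primeFactors) : dl l ≠ 0 := by
  intro h0
  apply h
  unfold ws
  refine Finset.prod_eq_zero hl ?_
  rw [h0]
  have h1 : n.factorization l ≠ 0 := by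
    have := Nat.support_factorization n ▸ hl
    exact Finsupp.mem_support_iff.1 this
  exact zero_pow h1

lemma gd_lcm {a m m' : ℕ} : Gd a m ∧ Gd a m' ↔ Gd a (m.lcm m') := by
  unfold Gd
  constructor
  · rintro ⟨h1, h2⟩ l hl hd
    have h3 : l ∣ m * m' := hd.trans (Nat.lcm_dvd_mul m m')
    rcases hl.dvd_mul.1 h3 with h | h
    · exact h1 l hl h
    · exact h2 l hl h
  · intro h
    exact ⟨fun l hl hd => h l hl (hd.trans (Nat.dvd_lcm_left m m')),
      fun l hl hd => h l hl (hd.trans (Nat.dvd_lcm_right m m'))⟩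

lemma wt_lcm {m m' : ℕ} (hm : m ≠ 0) (hm' : m' ≠ 0) :
    wt (m.lcm m') * wt (m.gcd m') = wt m * wt m' := by
  unfold wt
  have h1 : (m.lcm m').primeFactors = m.primeFactors ∪ m'.primeFactors := by
    ext l
    rw [Finset.mem_union, Nat.mem_primeFactors, Nat.mem_primeFactors, Nat.mem_primeFactors]
    constructor
    · rintro ⟨hl, hd, -⟩
      rcases hl.dvd_mul.1 (hd.trans (Nat.lcm_dvd_mul m m')) with h | h
      · exact Or.inl ⟨hl, h, hm⟩
      · exact Or.inr ⟨hl, h, hm'⟩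
    · rintro (⟨hl, hd, -⟩ | ⟨hl, hd, -⟩)
      · exact ⟨hl, hd.trans (Nat.dvd_lcm_left m m'), Nat.lcm_ne_zero hm hm'⟩
      · exact ⟨hl, hd.trans (Nat.dvd_lcm_right m m'), Nat.lcm_ne_zero hm hm'⟩
  have h2 : (m.gcd m').primeFactors = m.primeFactors ∩ m'.primeFactors := by
    rw [Nat.primeFactors_gcd hm hm']
  rw [h1, h2]
  exact Finset.prod_union_inter

/-- sum over the residues -/
lemma sum_a (hU : UnitsStmt) {Y n : ℕ} (hn : 1 ≤ n) (ho : Odd n) (hY : n ≤ Y) (t : ℝ) :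
    ∑ a ∈ Om Y, (if Gd a n then t / wt n else 0) = (Om Y).card * t := by
  have h1 : (((Om Y).filter (fun a => Gd a n)).card : ℝ) = (Om Y).card * wt n :=
    hU Y n hn ho fun l hl hd => (Nat.le_of_dvd hn hd).trans hY
  rw [← Finset.sum_filter, Finset.sum_const, nsmul_eq_mul, h1]
  have := wt_pos n
  field_simp

theorem prob1 (hU : UnitsStmt) : Prob1Stmt := by
  intro W c Z J X N₀ hW hZ hX hc hNc
  have hZ1 : 1 ≤ Z := by omega
  rw [Finset.sum_product]
  have h1 : ∀ N ∈ NN W X N₀, ∑ a ∈ Om (2 * X), Tsum W c Z J a N =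
      ∑ q ∈ Box W c Z, if Rp Z J q N then ((Om (2 * X)).card : ℝ) * ws (HH q) else 0 := by
    intro N hN
    have h2 : ∀ a : ℕ, Tsum W c Z J a N = ∑ q ∈ Box W c Z, if Rp Z J q N then
        (if Gd a (N + bb q) then ws (HH q) / wt (N + bb q) else 0) else 0 := by
      intro a
      unfold Tsum
      rw [Finset.sum_filter]
      refine Finset.sum_congr rfl fun q _ => ?_
      by_cases h : Rp Z J q N
      · by_cases h' : Gd a (N + bb q)
        · rw [if_pos ⟨h, h'⟩, if_pos h, if_pos h']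
        · rw [if_neg (fun h'' => h' h''.2), if_pos h, if_neg h']
      · rw [if_neg (fun h'' => h h''.1), if_neg h]
    rw [Finset.sum_congr rfl fun a _ => h2 a, Finset.sum_comm]
    refine Finset.sum_congr rfl fun q hq => ?_
    by_cases h : Rp Z J q N
    · rw [if_pos h, Finset.sum_congr rfl fun a _ => if_pos h]
      have h3 := mem_NN hN
      exact sum_a hU (by omega) (odd_sum hW hq hN hNc) (sum_le hZ1 hX hq hN) _
    · rw [if_neg h, Finset.sum_congr rfl fun a _ => if_neg h, Finset.sum_const_zero]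
  rw [Finset.sum_congr rfl h1, Finset.sum_comm, Finset.mul_sum]
  refine Finset.sum_congr rfl fun q _ => ?_
  rw [← Finset.sum_filter, Finset.sum_const, nsmul_eq_mul]
  ring

/-- `m / HH q` is rough: the primes up to `z` of `m` divide `HH q` -/
lemma dvd_HH {Z N l : ℕ} {q : ℕ × ℕ × ℕ × ℕ} (h : Rw Z q N) (hl : l.Prime) (hd : l ∣ N + bb q)
    (hz : l ≤ zz Z) : l ∣ HH q := by
  obtain ⟨h1, h2⟩ := h
  have h3 : HH q * ((N + bb q) / HH q) = N + bb q := Nat.mul_div_cancel' h1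
  rw [← h3] at hd
  rcases hl.dvd_mul.1 hd with h4 | h4
  · exact h4
  · exact absurd hz (not_le.2 (h2 l hl h4))

lemma rp_rw {Z J N : ℕ} {q : ℕ × ℕ × ℕ × ℕ} (h : Rp Z J q N) : Rw Z q N := ⟨h.1, h.2.1⟩

/-- the case `b ≠ b'` -/
lemma case_ne {W c Z X N₀ N : ℕ} {q q' : ℕ × ℕ × ℕ × ℕ} (hZ : 4 ≤ Z) (hq : q ∈ Box W c Z)
    (hq' : q' ∈ Box W c Z) (hN : N ∈ NN W X N₀) (hne : bb q ≠ bb q') (h : Rw Z q N)
    (h' : Rw Z q' N) : ws (HH q) * ws (HH q') / wt ((N + bb q).gcd (N + bb q')) ≤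
      ws (HH q) * ws (HH q') * 4 ^ ((HH q).gcd (HH q')).primeFactors.card := by
  by_cases h0 : ws (HH q) = 0
  · rw [h0, zero_mul, zero_mul, zero_div]
  · have hw1 : 0 ≤ ws (HH q) * ws (HH q') := mul_nonneg (ws_nonneg _) (ws_nonneg _)
    rw [div_eq_mul_inv]
    refine mul_le_mul_of_nonneg_left ?_ hw1
    have hN1 := mem_NN hN
    have hm : N + bb q ≠ 0 := by omega
    have hm' : N + bb q' ≠ 0 := by omega
    have hH0 : HH q ≠ 0 := by
      intro h1
      have := h.1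
      rw [h1, zero_dvd_iff] at this
      exact hm this
    have hH0' : HH q' ≠ 0 := by
      intro h1
      have := h'.1
      rw [h1, zero_dvd_iff] at this
      exact hm' this
    have hsub : ((N + bb q).gcd (N + bb q')).primeFactors ⊆
        ((HH q).gcd (HH q')).primeFactors := by
      intro l hl
      rw [Nat.mem_primeFactors] at hl
      obtain ⟨hp, hd, -⟩ := hl
      have hd1 := hd.trans (Nat.gcd_dvd_left _ _)
      have hd2 := hd.trans (Nat.gcd_dvd_right _ _)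
      have hb1 := bb_le (by omega) hq
      have hb2 := bb_le (by omega) hq'
      have hlz : l ≤ zz Z := by
        have hle : l ≤ 3 * Z ^ 300 := by
          rcases lt_or_gt_of_ne hne with hlt | hgt
          · have h5 : l ∣ (N + bb q') - (N + bb q) := Nat.dvd_sub hd2 hd1
            have h6 : (N + bb q') - (N + bb q) = bb q' - bb q := by omega
            rw [h6] at h5
            have h7 := Nat.le_of_dvd (by omega) h5
            omega
          · have h5 : l ∣ (N + bb q) - (N + bb q') := Nat.dvd_sub hd1 hd2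
            have h6 : (N + bb q) - (N + bb q') = bb q - bb q' := by omega
            rw [h6] at h5
            have h7 := Nat.le_of_dvd (by omega) h5
            omega
        refine hle.trans ?_
        unfold zz
        rw [pow_succ, mul_comm]
        exact Nat.mul_le_mul_left _ (by omega)
      rw [Nat.mem_primeFactors]
      refine ⟨hp, Nat.dvd_gcd (dvd_HH h hp hd1 hlz) (dvd_HH h' hp hd2 hlz), ?_⟩
      exact Nat.gcd_ne_zero_left hH0
    have hq4 : ∀ l ∈ ((N + bb q).gcd (N + bb q')).primeFactors, (delta l)⁻¹ ≤ 4 := by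
      intro l hl
      have h1 := hsub hl
      have h2 : l ∈ (HH q).primeFactors := by
        rw [Nat.mem_primeFactors] at h1 ⊢
        exact ⟨h1.1, h1.2.1.trans (Nat.gcd_dvd_left _ _), hH0⟩
      have h3 := quarter_le (dl_ne_of_ws_ne h0 h2)
      have h4 := delta_pos l
      rw [inv_le_comm₀ h4 (by norm_num)]
      linarith
    unfold wt
    rw [← Finset.prod_inv_distrib]
    calc ∏ l ∈ ((N + bb q).gcd (N + bb q')).primeFactors, (delta l)⁻¹
        ≤ ∏ _l ∈ ((N + bb q).gcd (N + bb q')).primeFactors, (4 : ℝ) :=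
          Finset.prod_le_prod (fun l _ => (inv_pos.2 (delta_pos l)).le) hq4
      _ = 4 ^ ((N + bb q).gcd (N + bb q')).primeFactors.card := by
          rw [Finset.prod_const]
      _ ≤ 4 ^ ((HH q).gcd (HH q')).primeFactors.card :=
          pow_le_pow_right₀ (by norm_num) (Finset.card_le_card hsub)

/-- number of prime factors of a rough number -/
lemma card_rough {z A y : ℕ} (hz : 2 ≤ z) (hy : y ≠ 0) (hr : Rgh z y) (hle : y ≤ z ^ A) :
    y.primeFactors.card ≤ A := by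
  have h1 : z ^ y.primeFactors.card ≤ ∏ l ∈ y.primeFactors, l := by
    rw [← Finset.prod_const]
    refine Finset.prod_le_prod' fun l hl => ?_
    rw [Nat.mem_primeFactors] at hl
    exact (hr l hl.1 hl.2.1).le
  have h2 : ∏ l ∈ y.primeFactors, l ≤ y := Nat.le_of_dvd (Nat.pos_of_ne_zero hy)
    (Nat.prod_primeFactors_dvd y)
  have h3 : z ^ y.primeFactors.card ≤ z ^ A := h1.trans (h2.trans hle)
  exact (Nat.pow_le_pow_iff_right (by omega)).1 h3

/-- the case `b = b'` -/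
lemma case_eq {W c Z J X N₀ N A : ℕ} {q q' : ℕ × ℕ × ℕ × ℕ} (hZ : 4 ≤ Z)
    (hX : 3 * Z ^ 300 ≤ X) (hA : 2 * X ≤ zz Z ^ A) (hq : q ∈ Box W c Z)
    (hq' : q' ∈ Box W c Z) (hN : N ∈ NN W X N₀) (he : bb q = bb q') (h' : Rp Z J q' N) :
    ws (HH q) * ws (HH q') / wt ((N + bb q).gcd (N + bb q')) ≤ 2 ^ (J * A) * ws (HH q) := by
  rw [he, Nat.gcd_self]
  set m := N + bb q' with hm
  have hN1 := mem_NN hN
  have hm0 : m ≠ 0 := by omega
  set y := m / HH q' with hy
  have hdvd : HH q' ∣ m := h'.1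
  have hmy : HH q' * y = m := Nat.mul_div_cancel' hdvd
  have hH0 : HH q' ≠ 0 := by
    intro h1
    rw [h1, zero_mul] at hmy
    exact hm0 hmy.symm
  have hy0 : y ≠ 0 := by
    intro h1
    rw [h1, mul_zero] at hmy
    exact hm0 hmy.symm
  have hyle : y ≤ zz Z ^ A := by
    have h1 : y ≤ m := Nat.div_le_self _ _
    have h2 := sum_le (by omega) hX hq' hN
    omega
  have hz2 : 2 ≤ zz Z := by
    unfold zz
    calc 2 ≤ Z ^ 1 := by rw [pow_one]; omega
      _ ≤ Z ^ 301 := Nat.pow_le_pow_right (by omega) (by norm_num)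
  have hcard : y.primeFactors.card ≤ A := card_rough hz2 hy0 h'.2.1 hyle
  -- lower bound for `wt m`
  have hwm : wt (HH q') * (1 / 2 : ℝ) ^ (J * A) ≤ wt m := by
    have hpf : m.primeFactors = (HH q').primeFactors ∪ (y.primeFactors \ (HH q').primeFactors) := by
      rw [← hmy, Nat.primeFactors_mul hH0 hy0, Finset.union_sdiff_self_eq_union]
    have h1 : wt m = wt (HH q') * ∏ l ∈ y.primeFactors \ (HH q').primeFactors, delta l := by
      unfold wt
      rw [hpf, Finset.prod_union Finset.disjoint_sdiff]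
    rw [h1]
    refine mul_le_mul_of_nonneg_left ?_ (wt_pos _).le
    have h2 : ∀ l ∈ y.primeFactors \ (HH q').primeFactors, (1 / 2 : ℝ) ^ J ≤ delta l := by
      intro l hl
      rw [Finset.mem_sdiff, Nat.mem_primeFactors] at hl
      have h3 := h'.2.2 l hl.1.1 hl.1.2.1
      unfold delta
      refine pow_le_pow_of_le_one (by norm_num) (by norm_num) ?_
      by_contra h4
      rw [not_le] at h4
      exact h3 ((pow_dvd_pow 2 h4).trans pow_padicValNat_dvd)
    calc (1 / 2 : ℝ) ^ (J * A) ≤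
          (1 / 2 : ℝ) ^ (J * (y.primeFactors \ (HH q').primeFactors).card) := by
          refine pow_le_pow_of_le_one (by norm_num) (by norm_num) ?_
          exact Nat.mul_le_mul_left _ ((Finset.card_le_card Finset.sdiff_subset).trans hcard)
      _ = ∏ _l ∈ y.primeFactors \ (HH q').primeFactors, ((1 / 2 : ℝ) ^ J) := by
          rw [Finset.prod_const, pow_mul]
      _ ≤ _ := Finset.prod_le_prod (fun l _ => by positivity) h2
  have h3 : ws (HH q') / wt m ≤ 2 ^ (J * A) := by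
    rw [div_le_iff₀ (wt_pos _)]
    calc ws (HH q') ≤ wt (HH q') := ws_le_wt _
      _ = 2 ^ (J * A) * (wt (HH q') * (1 / 2 : ℝ) ^ (J * A)) := by
          have : (2 : ℝ) ^ (J * A) * (1 / 2 : ℝ) ^ (J * A) = 1 := by
            rw [← mul_pow]
            norm_num
          calc wt (HH q') = (2 : ℝ) ^ (J * A) * (1 / 2 : ℝ) ^ (J * A) * wt (HH q') := by
                rw [this, one_mul]
            _ = _ := by ring
      _ ≤ 2 ^ (J * A) * wt m := mul_le_mul_of_nonneg_left hwm (by positivity)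
  rw [mul_div_assoc, mul_comm]
  exact mul_le_mul_of_nonneg_right h3 (ws_nonneg _)

theorem prob2 (hU : UnitsStmt) : Prob2Stmt := by
  intro W c Z J X N₀ A hW hZ hJ hX hA hc hNc
  have hZ1 : 1 ≤ Z := by omega
  set O := Om (2 * X) with hO
  have hO0 : (0 : ℝ) ≤ (O.card : ℝ) := Nat.cast_nonneg _
  -- the summand
  set F : ℕ → (ℕ × ℕ × ℕ × ℕ) × (ℕ × ℕ × ℕ × ℕ) → ℝ := fun N p =>
    if Rp Z J p.1 N ∧ Rp Z J p.2 N then
      (O.card : ℝ) * (ws (HH p.1) * ws (HH p.2) / wt ((N + bb p.1).gcd (N + bb p.2))) else 0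
    with hF
  have hsq : ∀ N ∈ NN W X N₀, ∑ a ∈ O, Tsum W c Z J a N ^ 2 =
      ∑ p ∈ Box W c Z ×ˢ Box W c Z, F N p := by
    intro N hN
    have h2 : ∀ a : ℕ, Tsum W c Z J a N ^ 2 = ∑ p ∈ Box W c Z ×ˢ Box W c Z,
        if Rp Z J p.1 N ∧ Rp Z J p.2 N then
        (if Gd a ((N + bb p.1).lcm (N + bb p.2)) then
          (ws (HH p.1) / wt (N + bb p.1)) * (ws (HH p.2) / wt (N + bb p.2)) else 0) else 0 := by
      intro a
      unfold Tsum
      rw [sq, Finset.sum_mul_sum, ← Finset.sum_product']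
      rw [← Finset.filter_product, Finset.sum_filter]
      refine Finset.sum_congr rfl fun p _ => ?_
      by_cases h : Rp Z J p.1 N
      · by_cases h' : Rp Z J p.2 N
        · by_cases h3 : Gd a ((N + bb p.1).lcm (N + bb p.2))
          · have h4 := gd_lcm.2 h3
            rw [if_pos ⟨⟨h, h4.1⟩, h', h4.2⟩, if_pos ⟨h, h'⟩, if_pos h3]
          · rw [if_neg, if_pos ⟨h, h'⟩, if_neg h3]
            rintro ⟨⟨-, h5⟩, -, h6⟩
            exact h3 (gd_lcm.1 ⟨h5, h6⟩)
        · rw [if_neg (fun h5 => h' h5.2.1), if_neg (fun h5 => h' h5.2)]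
      · rw [if_neg (fun h5 => h h5.1.1), if_neg (fun h5 => h h5.1)]
    rw [Finset.sum_congr rfl fun a _ => h2 a, Finset.sum_comm]
    refine Finset.sum_congr rfl fun p hp => ?_
    rw [Finset.mem_product] at hp
    by_cases h : Rp Z J p.1 N ∧ Rp Z J p.2 N
    · rw [Finset.sum_congr rfl fun a _ => if_pos h]
      change _ = (if _ then _ else _)
      rw [if_pos h]
      have hN1 := mem_NN hN
      set m := N + bb p.1 with hm
      set m' := N + bb p.2 with hm'
      have hm0 : m ≠ 0 := by omega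
      have hm0' : m' ≠ 0 := by omega
      have hl0 : m.lcm m' ≠ 0 := Nat.lcm_ne_zero hm0 hm0'
      have ho1 : Odd m := odd_sum hW hp.1 hN hNc
      have ho2 : Odd m' := odd_sum hW hp.2 hN hNc
      have hle1 : m ≤ 2 * X := sum_le hZ1 hX hp.1 hN
      have hle2 : m' ≤ 2 * X := sum_le hZ1 hX hp.2 hN
      have hol : Odd (m.lcm m') := by
        have h5 : Odd (m * m') := ho1.mul ho2
        exact Odd.of_dvd_nat h5 (Nat.lcm_dvd_mul m m')
      have hcard : ((O.filter (fun a => Gd a (m.lcm m'))).card : ℝ) = O.card * wt (m.lcm m') := by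
        refine hU (2 * X) (m.lcm m') (Nat.one_le_iff_ne_zero.2 hl0) hol fun l hl hd => ?_
        have h3 : l ∣ m * m' := hd.trans (Nat.lcm_dvd_mul m m')
        rcases hl.dvd_mul.1 h3 with h6 | h6
        · exact (Nat.le_of_dvd (Nat.pos_of_ne_zero hm0) h6).trans hle1
        · exact (Nat.le_of_dvd (Nat.pos_of_ne_zero hm0') h6).trans hle2
      rw [← Finset.sum_filter, Finset.sum_const, nsmul_eq_mul, hcard]
      have h7 := wt_lcm hm0 hm0'
      have h8 := wt_pos m
      have h9 := wt_pos m'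
      have h10 := wt_pos (m.gcd m')
      rw [div_mul_div_comm, ← h7]
      have h11 := wt_pos (m.lcm m')
      field_simp
    · rw [Finset.sum_congr rfl fun a _ => if_neg h, Finset.sum_const_zero]
      change _ = (if _ then _ else _)
      rw [if_neg h]
  rw [Finset.sum_product, Finset.sum_congr rfl hsq]
  rw [Finset.sum_comm]
  rw [← Finset.sum_filter_add_sum_filter_not (Box W c Z ×ˢ Box W c Z)
    (fun p => bb p.1 ≠ bb p.2)]
  rw [mul_add]
  have e3 : (Box W c Z ×ˢ Box W c Z).filter (fun p => ¬ bb p.1 ≠ bb p.2) =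
      (Box W c Z ×ˢ Box W c Z).filter (fun p => bb p.1 = bb p.2) := by
    refine Finset.filter_congr fun p _ => ?_
    exact not_not
  rw [e3]
  have key : ∀ (p : (ℕ × ℕ × ℕ × ℕ) × (ℕ × ℕ × ℕ × ℕ)) (t : ℝ), 0 ≤ t →
      (∀ N ∈ NN W X N₀, Rp Z J p.1 N → Rp Z J p.2 N →
        ws (HH p.1) * ws (HH p.2) / wt ((N + bb p.1).gcd (N + bb p.2)) ≤ t) →
      ∑ N ∈ NN W X N₀, F N p ≤ (O.card : ℝ) * (t *
        (((NN W X N₀).filter (fun N => Rw Z p.1 N ∧ Rw Z p.2 N)).card : ℝ)) := by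
    intro p t ht hle
    calc ∑ N ∈ NN W X N₀, F N p ≤ ∑ N ∈ NN W X N₀,
          (if Rw Z p.1 N ∧ Rw Z p.2 N then (O.card : ℝ) * t else 0) := by
          refine Finset.sum_le_sum fun N hN => ?_
          change (if Rp Z J p.1 N ∧ Rp Z J p.2 N then (O.card : ℝ) *
            (ws (HH p.1) * ws (HH p.2) / wt ((N + bb p.1).gcd (N + bb p.2))) else 0) ≤ _
          by_cases h : Rp Z J p.1 N ∧ Rp Z J p.2 N
          · rw [if_pos h, if_pos ⟨rp_rw h.1, rp_rw h.2⟩]
            exact mul_le_mul_of_nonneg_left (hle N hN h.1 h.2) hO0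
          · rw [if_neg h]
            split_ifs
            · exact mul_nonneg hO0 ht
            · exact le_rfl
      _ = _ := by
          rw [← Finset.sum_filter, Finset.sum_const, nsmul_eq_mul]
          ring
  refine add_le_add ?_ ?_
  · rw [Finset.mul_sum]
    refine Finset.sum_le_sum fun p hp => ?_
    rw [Finset.mem_filter, Finset.mem_product] at hp
    refine key p _ ?_ ?_
    · exact mul_nonneg (mul_nonneg (ws_nonneg _) (ws_nonneg _)) (by positivity)
    · intro N hN h1 h2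
      exact case_ne hZ hp.1.1 hp.1.2 hN hp.2 (rp_rw h1) (rp_rw h2)
  · rw [Finset.mul_sum, Finset.mul_sum]
    refine Finset.sum_le_sum fun p hp => ?_
    rw [Finset.mem_filter, Finset.mem_product] at hp
    refine (key p (2 ^ (J * A) * ws (HH p.1)) ?_ ?_).trans (le_of_eq (by ring))
    · exact mul_nonneg (by positivity) (ws_nonneg _)
    · intro N hN h1 h2
      exact case_eq hZ hX hA hp.1.1 hp.1.2 hN hp.2 h2

end Pool.Agent.Lib.MP_ba0fa5_ag.AA.H47
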